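import Pool.Agent.H14R3.KK.Defs

/-! Task ESYM of project KK (MP_d47e08_pr), by helper298. -/

set_option autoImplicit false
open MeasureTheory ProbabilityTheory Filter Topology

namespace KK14

namespace ESYMx

theorem two_terms (s y : ℝ) (hs : 0 ≤ s) (hy : 0 ≤ y) (q : ℕ) :
    s ^ (q + 1) + (q + 1) * y * s ^ q ≤ (s + y) ^ (q + 1) := by
  induction q with
  | zero => simp
  | succ q ih =>
    have h1 : (s + y) * (s ^ (q + 1) + (q + 1) * y * s ^ q) ≤ (s + y) * (s + y) ^ (q + 1) :=
      mul_le_mul_of_nonneg_left ih (by linarith)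
    have h2 : 0 ≤ (q + 1) * y ^ 2 * s ^ q := by positivity
    have h3 : (s + y) * (s + y) ^ (q + 1) = (s + y) ^ (q + 1 + 1) := by ring
    have h4 : (s + y) * (s ^ (q + 1) + (q + 1) * y * s ^ q) =
        s ^ (q + 1 + 1) + ((q + 1 : ℕ) + 1) * y * s ^ (q + 1) + (q + 1) * y ^ 2 * s ^ q := by
      push_cast; ring
    rw [h3, h4] at h1
    linarith

end ESYMx

theorem ESYM {α : Type*} [DecidableEq α] (U : Finset α) (y : α → ℝ) (hy : ∀ x ∈ U, 0 ≤ y x)
    (q : ℕ) : ∑ B ∈ U.powersetCard q, ∏ x ∈ B, y x ≤ (∑ x ∈ U, y x) ^ q / q.factorial := by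
  induction U using Finset.induction_on generalizing q with
  | empty =>
    rcases q with _ | q
    · simp
    · rw [Finset.powersetCard_eq_empty.2 (by simp)]
      simp
  | insert a U ha ih =>
    rcases q with _ | q
    · simp
    · have hyU : ∀ x ∈ U, 0 ≤ y x := fun x hx => hy x (Finset.mem_insert_of_mem hx)
      have hya : 0 ≤ y a := hy a (Finset.mem_insert_self _ _)
      have ih1 := ih hyU q
      have ih2 := ih hyU (q + 1)
      have hdisj : Disjoint (U.powersetCard (q + 1)) ((U.powersetCard q).image (insert a)) := by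
        rw [Finset.disjoint_left]
        intro B hB hB'
        rw [Finset.mem_image] at hB'
        obtain ⟨C, _, rfl⟩ := hB'
        rw [Finset.mem_powersetCard] at hB
        exact ha (hB.1 (Finset.mem_insert_self _ _))
      rw [Finset.powersetCard_succ_insert ha, Finset.sum_union hdisj, Finset.sum_image (by
        intro B hB C hC hBC
        rw [Finset.mem_coe, Finset.mem_powersetCard] at hB hC
        have h1 : a ∉ B := fun h => ha (hB.1 h)
        have h2 : a ∉ C := fun h => ha (hC.1 h)
        rw [← Finset.erase_insert h1, ← Finset.erase_insert h2]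
        exact congrArg (fun D => Finset.erase D a) hBC)]
      have h3 : ∑ B ∈ U.powersetCard q, ∏ x ∈ insert a B, y x =
          y a * ∑ B ∈ U.powersetCard q, ∏ x ∈ B, y x := by
        rw [Finset.mul_sum]
        apply Finset.sum_congr rfl
        intro B hB
        rw [Finset.mem_powersetCard] at hB
        exact Finset.prod_insert fun h => ha (hB.1 h)
      rw [h3, Finset.sum_insert ha, add_comm (y a)]
      set s := ∑ x ∈ U, y x with hs
      have hs0 : 0 ≤ s := Finset.sum_nonneg hyU
      have h4 := ESYMx.two_terms s (y a) hs0 hya q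
      have hf : (0 : ℝ) < (q + 1).factorial := by exact_mod_cast Nat.factorial_pos _
      have hf' : (0 : ℝ) < q.factorial := by exact_mod_cast Nat.factorial_pos _
      calc _ ≤ s ^ (q + 1) / (q + 1).factorial + y a * (s ^ q / q.factorial) :=
            add_le_add ih2 (mul_le_mul_of_nonneg_left ih1 hya)
        _ = (s ^ (q + 1) + (q + 1) * y a * s ^ q) / (q + 1).factorial := by
            rw [Nat.factorial_succ]
            push_cast
            field_simp
        _ ≤ _ := by gcongr

end KK14
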